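import Mathlib
import Pool.Agent.H3.SgG

namespace Pool.Agent.Results.MP_46f8bc_an.Q1No

/-- `pw a n` is the power `a ^ (n + 1)` in a possibly non-unital algebra -/
def pw {R : Type} [Mul R] (a : R) : ℕ → R
  | 0 => a
  | n + 1 => a * pw a n

open Pool.Agent.H3.Sg in
theorem result : ¬ ∀ (R : Type) [NonUnitalNormedCommRing R] [NormedSpace ℂ R]
    [IsScalarTower ℂ R R] [SMulCommClass ℂ R R] [CompleteSpace R],
    (∀ x : R, spectralRadius ℂ (x : Unitization ℂ R) = 0) →
    (∃ a : R, (∀ n, pw a n ≠ 0) ∧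
      ∃ n, pw a n ∈ closure (Set.range fun r : R => pw a (n + 1) * r)) →
    ∃ a : ℝ → R, (∃ t, 0 < t ∧ a t ≠ 0) ∧ (∀ s t, 0 < s → 0 < t → a (s + t) = a s * a t) ∧
      ContinuousOn a (Set.Ioi 0) := by
  intro h
  obtain ⟨a, ha⟩ := ex_a
  have hd : ∀ n, DenseRange (fun y => pw a n * y) := by
    intro n
    induction n with
    | zero => exact ha
    | succ n ih =>
      have := ha.comp ih (continuous_const.mul continuous_id)
      simpa only [Function.comp_def, pw, mul_assoc] using this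
  obtain ⟨b, ⟨t, ht, hb⟩, hm, hc⟩ := h RA (fun x => by
      refine le_antisymm (iSup₂_le fun k hk => ?_) bot_le
      rw [spec x hk]; simp)
    ⟨a, fun n h0 => by
      have h1 := hd n (eR ⟨1, one_pos⟩)
      simp only [h0, zero_mul, Set.range_const, closure_singleton, Set.mem_singleton_iff] at h1
      have h2 := norm_eR ⟨1, one_pos⟩
      rw [h1, norm_zero] at h2
      exact zero_ne_one h2, 0, hd 1 _⟩
  exact hb (nosg b hm hc t ht)

end Pool.Agent.Results.MP_46f8bc_an.Q1No
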