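import Mathlib
import Pool.Agent.H3.SgE

open Filter Topology

namespace Pool.Agent.Results.MP_46f8bc_an.Q2No

/-- the weight `exp (-q ^ 2)` on the strictly positive rationals -/
noncomputable def w (q : {q : ℚ // 0 < q}) : ℝ := Real.exp (-((q : ℚ) : ℝ) ^ 2)

theorem result (a : ℝ → {q : ℚ // 0 < q} → ℂ)
    (hmem : ∀ t, 0 < t → Summable fun q => ‖a t q‖ * w q)
    (hmul : ∀ s t, 0 < s → 0 < t → ∀ r : {q : ℚ // 0 < q}, a (s + t) r =
      ∑' pq : {q : ℚ // 0 < q} × {q : ℚ // 0 < q},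
        if pq.1.1 + pq.2.1 = r.1 then a s pq.1 * a t pq.2 else 0)
    (hcont : ∀ t₀, 0 < t₀ →
      Tendsto (fun t => ∑' q, ‖a t q - a t₀ q‖ * w q) (𝓝[Set.Ioi 0] t₀) (𝓝 0)) :
    ∀ t, 0 < t → ∀ q, a t q = 0 :=
  Pool.Agent.H3.Sg.zero a hmem hmul hcont

end Pool.Agent.Results.MP_46f8bc_an.Q2No
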